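import Pool.Agent.TH618.MC.Misc

/-! # Iterated conditional expectation in disjoint balls (project MC618) -/

set_option autoImplicit false

noncomputable section

namespace Pool.Agent.TH733.MC618

open MeasureTheory Pool.Agent.H556R5 Pool.Agent.TH618.MC
open Pool.Agent.H5R2.ON Pool.Agent.H717R2.ON3 Pool.Agent.H983R2.ONJ
open Pool.Agent.H983R2.ONJ.Aux269 (continuous_cc abs_cc_le)

variable {V : Type} [Fintype V] [DecidableEq V] {N : ℕ}

theorem meas_gV (hN : N ≠ 0) {H : (V → Sph N) → ℝ} (hH : Continuous H) (Λ : Finset V)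
    {F : (V → Sph N) → ℝ} (hF : Continuous F) : Measurable fun S => gV H Λ S F := by
  have hp := pr_prob (V := V) hN
  have hT := (spl_preserving (V := V) hN Λ).measurable
  have hs : Measurable fun p : (V → Sph N) × (V → Sph N) => spl Λ p.2 p.1 :=
    hT.comp measurable_swap
  have h1 : Measurable fun p : (V → Sph N) × (V → Sph N) =>
      F (spl Λ p.2 p.1) * Real.exp (H (spl Λ p.2 p.1)) :=
    (hF.measurable.comp hs).mul (Real.measurable_exp.comp (hH.measurable.comp hs))
  have h2 : Measurable fun p : (V → Sph N) × (V → Sph N) =>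
      Real.exp (H (spl Λ p.2 p.1)) :=
    Real.measurable_exp.comp (hH.measurable.comp hs)
  unfold gV
  exact (h1.stronglyMeasurable.integral_prod_right' (ν := pr V N)).measurable.div
    (h2.stronglyMeasurable.integral_prod_right' (ν := pr V N)).measurable

theorem gV_spl (H : (V → Sph N) → ℝ) (Λ : Finset V) (F : (V → Sph N) → ℝ)
    (S' S : V → Sph N) : gV H Λ (spl Λ S' S) F = gV H Λ S F := by
  have h : ∀ S'' : V → Sph N, spl Λ S'' (spl Λ S' S) = spl Λ S'' S := by
    intro S''
    funext x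
    unfold spl
    by_cases hx : x ∈ Λ <;> simp [hx]
  unfold gV
  simp only [h]

/-- the conditional expectation in `Λ` may be inserted -/
theorem cond_eq (hN : N ≠ 0) {H : (V → Sph N) → ℝ}
    (hH : Continuous H) {Λ : Finset V}
    {F G : (V → Sph N) → ℝ} (hF : Continuous F) (hG : Measurable G) {C0 : ℝ}
    (hGB : ∀ S, |G S| ≤ C0)
    (hGloc : ∀ S S' : V → Sph N, (∀ x, x ∉ Λ → S x = S' x) → G S = G S')
    (m : ℝ) (hm : ∀ η : V → Sph N, |gV H Λ η F| ≤ m) :
    ∫ S, (G S * F S) * Real.exp (H S) ∂(pr V N) =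
      ∫ S, (G S * gV H Λ S F) * Real.exp (H S) ∂(pr V N) := by
  have hw : Continuous fun S : V → Sph N => Real.exp (H S) := Real.continuous_exp.comp hH
  obtain ⟨CF, hCF⟩ := bdd hF
  obtain ⟨C, hC⟩ := bdd hw
  have hGsp : ∀ S' S : V → Sph N, G (spl Λ S' S) = G S := fun S' S =>
    hGloc _ _ fun x hx => by simp [spl, hx]
  have hm1 : Measurable (fun S : V → Sph N => (G S * F S) * Real.exp (H S)) :=
    (hG.mul hF.measurable).mul hw.measurable
  have hb1 : ∀ S : V → Sph N, |(G S * F S) * Real.exp (H S)| ≤ (C0 * CF) * C := fun S => by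
    rw [abs_mul, abs_mul]
    have h2 : 0 ≤ CF := (abs_nonneg _).trans (hCF S)
    have h3 : 0 ≤ C0 := (abs_nonneg _).trans (hGB S)
    exact mul_le_mul (mul_le_mul (hGB _) (hCF _) (abs_nonneg _) h3) (hC _)
      (abs_nonneg _) (mul_nonneg h3 h2)
  obtain ⟨e1, -⟩ := resample hN Λ hm1 _ hb1
  have hm2 : Measurable (fun S : V → Sph N => (G S * gV H Λ S F) * Real.exp (H S)) :=
    (hG.mul (meas_gV hN hH Λ hF)).mul hw.measurable
  have hb2 : ∀ S : V → Sph N, |(G S * gV H Λ S F) * Real.exp (H S)| ≤ (C0 * m) * C := fun S => by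
    rw [abs_mul, abs_mul]
    have h2 : 0 ≤ m := (abs_nonneg _).trans (hm S)
    have h3 : 0 ≤ C0 := (abs_nonneg _).trans (hGB S)
    exact mul_le_mul (mul_le_mul (hGB _) (hm _) (abs_nonneg _) h3) (hC _)
      (abs_nonneg _) (mul_nonneg h3 h2)
  obtain ⟨e2, -⟩ := resample hN Λ hm2 _ hb2
  have hZ' : ∀ η : V → Sph N, 0 < ∫ S', Real.exp (H (spl Λ S' η)) ∂(pr V N) := fun η =>
    ZV_pos hN (hH.comp (cont_spl Λ η))
  rw [e1, e2]
  congr 1
  funext S
  have r1 : ∫ S', (G (spl Λ S' S) * F (spl Λ S' S)) *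
      Real.exp (H (spl Λ S' S)) ∂(pr V N) =
      G S * ((gV H Λ S F) * ∫ S', Real.exp (H (spl Λ S' S)) ∂(pr V N)) := by
    unfold gV
    rw [div_mul_cancel₀ _ (hZ' S).ne', ← integral_const_mul]
    congr 1
    funext S'
    rw [hGsp]
    ring
  have r2 : ∫ S', (G (spl Λ S' S) * gV H Λ (spl Λ S' S) F) *
      Real.exp (H (spl Λ S' S)) ∂(pr V N) =
      G S * ((gV H Λ S F) * ∫ S', Real.exp (H (spl Λ S' S)) ∂(pr V N)) := by
    rw [← mul_assoc, ← integral_const_mul]
    congr 1
    funext S'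
    rw [hGsp, gV_spl]
  rw [r1, r2]

theorem inf_finset {K : Type} [DecidableEq K] (H : (V → Sph 4) → ℝ) (hH : Continuous H)
    (B : K → Finset V) (u : K → V) (i : K → Fin 4) (m : ℝ) (hm0 : 0 ≤ m)
    (hu : ∀ k, u k ∈ B k) (hd : ∀ k l, k ≠ l → Disjoint (B k) (B l))
    (hb : ∀ k η, |gV H (B k) η (fun S => cc (i k) (S (u k)))| ≤ m)
    (hind : ∀ k l, k ≠ l → ∀ S S' : V → Sph 4, (∀ x, x ∉ B l → S x = S' x) →
      gV H (B k) S (fun S => cc (i k) (S (u k))) = gV H (B k) S' (fun S => cc (i k) (S (u k))))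
    (T : Finset K) :
    ∀ (G : (V → Sph 4) → ℝ), Measurable G → (∃ C, ∀ S, |G S| ≤ C) →
    (∀ k ∈ T, ∀ S S' : V → Sph 4, (∀ x, x ∉ B k → S x = S' x) → G S = G S') →
    |∫ S, (G S * ∏ k ∈ T, cc (i k) (S (u k))) * Real.exp (H S) ∂(pr V 4)| ≤
      m ^ T.card * ∫ S, |G S| * Real.exp (H S) ∂(pr V 4) := by
  have hN : (4 : ℕ) ≠ 0 := by norm_num
  have hp := pr_prob (V := V) hN
  have hF : ∀ k, Continuous fun S : V → Sph 4 => cc (i k) (S (u k)) := fun k =>
    (continuous_cc (i k)).comp (continuous_apply (u k))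
  have hw : Continuous fun S : V → Sph 4 => Real.exp (H S) := Real.continuous_exp.comp hH
  induction T using Finset.induction_on with
  | empty =>
    intro G hG hGb _
    simp only [Finset.prod_empty, mul_one, Finset.card_empty, pow_zero, one_mul]
    refine (abs_integral_le_integral_abs).trans (le_of_eq ?_)
    congr 1
    funext S
    rw [abs_mul, abs_of_pos (Real.exp_pos _)]
  | insert k0 T hk0 ih =>
    intro G hG hGb hloc
    obtain ⟨C0, hC0⟩ := hGb
    -- the function which does not depend on the ball of `k0`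
    have hP : Measurable fun S : V → Sph 4 => ∏ k ∈ T, cc (i k) (S (u k)) :=
      Finset.measurable_prod _ fun k _ => (hF k).measurable
    have hPb : ∀ S : V → Sph 4, |∏ k ∈ T, cc (i k) (S (u k))| ≤ 1 := by
      intro S
      rw [Finset.abs_prod]
      exact Finset.prod_le_one (fun k _ => abs_nonneg _) fun k _ => abs_cc_le (i k) _
    have hPloc : ∀ S S' : V → Sph 4, (∀ x, x ∉ B k0 → S x = S' x) →
        ∏ k ∈ T, cc (i k) (S (u k)) = ∏ k ∈ T, cc (i k) (S' (u k)) := by
      intro S S' h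
      refine Finset.prod_congr rfl fun k hk => ?_
      have hne : k ≠ k0 := fun e => hk0 (e ▸ hk)
      rw [h (u k) (fun hx => Finset.disjoint_left.1 (hd k k0 hne) (hu k) hx)]
    have e1 := cond_eq (V := V) hN hH (Λ := B k0) (F := fun S => cc (i k0) (S (u k0)))
      (G := fun S => G S * ∏ k ∈ T, cc (i k) (S (u k))) (hF k0) (hG.mul hP) (C0 := C0 * 1)
      (fun S => by
        rw [abs_mul]
        exact mul_le_mul (hC0 S) (hPb S) (abs_nonneg _) ((abs_nonneg _).trans (hC0 S)))
      (fun S S' h => by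
        rw [hloc k0 (Finset.mem_insert_self _ _) S S' h, hPloc S S' h])
      m (hb k0)
    have e0 : ∫ S, (G S * ∏ k ∈ insert k0 T, cc (i k) (S (u k))) * Real.exp (H S) ∂(pr V 4) =
        ∫ S, ((G S * gV H (B k0) S (fun S => cc (i k0) (S (u k0)))) *
          ∏ k ∈ T, cc (i k) (S (u k))) * Real.exp (H S) ∂(pr V 4) := by
      have e2 : ∫ S, (G S * ∏ k ∈ insert k0 T, cc (i k) (S (u k))) * Real.exp (H S) ∂(pr V 4) =
          ∫ S, ((G S * ∏ k ∈ T, cc (i k) (S (u k))) * cc (i k0) (S (u k0))) *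
            Real.exp (H S) ∂(pr V 4) := by
        congr 1
        funext S
        rw [Finset.prod_insert hk0]
        ring
      rw [e2, e1]
      congr 1
      funext S
      ring
    have hg := meas_gV (V := V) hN hH (B k0) (hF k0)
    have h3 := ih (fun S => G S * gV H (B k0) S (fun S => cc (i k0) (S (u k0)))) (hG.mul hg)
      ⟨C0 * m, fun S => by
        rw [abs_mul]
        exact mul_le_mul (hC0 S) (hb k0 S) (abs_nonneg _) ((abs_nonneg _).trans (hC0 S))⟩
      (fun k hk S S' h => by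
        have hne : k0 ≠ k := fun e => hk0 (e ▸ hk)
        rw [hloc k (Finset.mem_insert_of_mem hk) S S' h, hind k0 k hne S S' h])
    rw [e0]
    refine h3.trans ?_
    rw [Finset.card_insert_of_notMem hk0, pow_succ, mul_assoc]
    refine mul_le_mul_of_nonneg_left ?_ (pow_nonneg hm0 _)
    rw [← integral_const_mul]
    obtain ⟨C, hC⟩ := bdd hw
    have hi : Integrable (fun S : V → Sph 4 => m * (|G S| * Real.exp (H S))) (pr V 4) := by
      refine Integrable.const_mul ?_ m
      refine Integrable.of_bound (hG.abs.mul hw.measurable).aestronglyMeasurable (C0 * C)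
        (Filter.Eventually.of_forall fun S => ?_)
      rw [Real.norm_eq_abs, abs_mul, abs_abs]
      exact mul_le_mul (hC0 S) (hC S) (abs_nonneg _) ((abs_nonneg _).trans (hC0 S))
    refine integral_mono_of_nonneg (Filter.Eventually.of_forall fun S => ?_) hi
      (Filter.Eventually.of_forall fun S => ?_)
    · exact mul_nonneg (abs_nonneg _) (Real.exp_pos _).le
    · simp only
      rw [abs_mul]
      calc |G S| * |gV H (B k0) S fun S => cc (i k0) (S (u k0))| * Real.exp (H S)
          ≤ |G S| * m * Real.exp (H S) :=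
            mul_le_mul_of_nonneg_right (mul_le_mul_of_nonneg_left (hb k0 S) (abs_nonneg _))
              (Real.exp_pos _).le
        _ = m * (|G S| * Real.exp (H S)) := by ring

theorem inf : S_inf := by
  intro V K _ _ _ _ H hH B u i m hm0 hu hd hb hind G hG hGb hloc
  have h := inf_finset H hH B u i m hm0 hu hd hb hind Finset.univ G hG hGb
    (fun k _ => hloc k)
  rwa [Finset.card_univ] at h

end Pool.Agent.TH733.MC618
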